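import Pool.Agent.helper41.HFE.SpecD

/-!
# Row hfe:NUR (pure arithmetic)
-/

set_option autoImplicit false

open Polynomial Module Pool.Agent.HFN

namespace Pool.Agent.HFE

noncomputable section

theorem NUR_int (r v w s β β' : ℤ) (hr : 25 < r) (hw : 25 * r ≤ w * w) (hw0 : 0 ≤ w) (hs0 : 0 ≤ s) (hv0 : 0 ≤ v)
    (hβ : 0 ≤ β) (hβ' : 0 ≤ β') (h1 : (w + 1) * s + 2 * v ≤ 2 * r) (h2 : r + 3 + w * β' ≤ 2 * v + s)
    (h3 : v ≤ β * β' + 3 * β' + β + 4) (h4 : 25 * β ^ 2 ≤ r) : False := by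
  have a1 : 25 * β ≤ w := by
    by_contra hc
    push Not at hc
    have h5 : w * w ≤ w * (25 * β) := mul_le_mul_of_nonneg_left hc.le hw0
    have h6 : w * (25 * β) < (25 * β) * (25 * β) := by
      apply mul_lt_mul_of_pos_right hc
      linarith
    nlinarith
  have a2 : 25 < w := by
    by_contra hc
    push Not at hc
    have h5 : w * w ≤ 25 * 25 := mul_le_mul hc hc hw0 (by norm_num)
    linarith
  have a3 : 0 ≤ w - 2 * β - 6 := by
    rcases eq_or_lt_of_le hβ with h | h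
    · rw [← h]; linarith
    · have : 1 ≤ β := h
      linarith
  have a4 : 0 ≤ (w - 2 * β - 6) * β' := mul_nonneg a3 hβ'
  have a5 : r ≤ 5 + 2 * β + s := by nlinarith
  have a6 : w * s ≤ 2 * r := by nlinarith
  have a7 : 25 * s ^ 2 ≤ 4 * r := by
    have h5 : (w * s) * (w * s) ≤ (2 * r) * (2 * r) := mul_le_mul a6 a6 (mul_nonneg hw0 hs0) (by linarith)
    have h6 : 25 * r * s ^ 2 ≤ (w * w) * s ^ 2 := mul_le_mul_of_nonneg_right hw (sq_nonneg s)
    have h7 : r * (25 * s ^ 2) ≤ r * (4 * r) := by nlinarith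
    exact le_of_mul_le_mul_left h7 (by linarith)
  have a8 : (r - 5) * (r - 5) ≤ (2 * β + s) * (2 * β + s) := mul_le_mul (by linarith) (by linarith) (by linarith) (by linarith)
  nlinarith [sq_nonneg (2 * β - s)]

theorem NUR : NUR_stmt := by
  intro r v w s a' b' b hr hw h1 h2 hab ha hb hv h4 hb1
  obtain ⟨β, rfl⟩ : ∃ β, b = β + 1 := ⟨b - 1, by omega⟩
  obtain ⟨β', hβ'⟩ : ∃ β', a' * b' = β' + 1 := ⟨a' * b' - 1, by
    have : 1 ≤ a' * b' := Nat.mul_pos ha hb
    omega⟩
  rw [hβ', Nat.add_sub_cancel] at h2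
  rw [Nat.add_sub_cancel] at h4
  have h3 : v ≤ β * β' + 3 * β' + β + 4 := by
    rcases hab with h | h
    · rw [h, one_mul] at hβ'
      rw [h, hβ'] at hv
      have : 0 ≤ β * β' := Nat.zero_le _
      linarith
    · rw [h, mul_one] at hβ'
      rw [h, hβ'] at hv
      linarith
  refine NUR_int r v w s β β' (by exact_mod_cast hr) (by exact_mod_cast hw) (by positivity) (by positivity) (by positivity)
    (by positivity) (by positivity) (by exact_mod_cast h1) (by exact_mod_cast h2) (by exact_mod_cast h3) (by exact_mod_cast h4)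

end

end Pool.Agent.HFE
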